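import Pool.Agent.V1171.LS.NotB

set_option autoImplicit false
set_option synthInstance.maxHeartbeats 400000

open Topology WeakDual Filter

namespace Pool.Agent.V1171.LS

lemma upd_mem {m j : ℕ} (hj : m ≤ j) {x : ℕ → ℂ} (hx : x ∈ K m) (t : ℝ) (ht : 0 ≤ t)
    (ht1 : t ≤ 1) : Function.update x j (t : ℂ) ∈ K (j + 1) := by
  refine ⟨fun i => ?_, fun i hi => ?_⟩
  · by_cases h : i = j
    · subst h
      rw [Function.update_self, Complex.norm_real, Real.norm_of_nonneg ht]
      exact ht1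
    · rw [Function.update_of_ne h]
      exact hx.1 i
  · rw [Function.update_of_ne (by omega)]
    exact hx.2 i (by omega)

/-- the element `∑_{m ≤ l} c l • x l` of `B` -/
noncomputable def linE (m : ℕ) (c : ℕ → ℂ) : E
  | 0 => 0
  | n + 1 => ⟨fun x => ∑ l ∈ Finset.Ico m n, c l * (x : ℕ → ℂ) l, by
      refine continuous_finsetSum _ fun l _ => continuous_const.mul ?_
      exact (continuous_apply l).comp continuous_subtype_val⟩

lemma linE_mem (m : ℕ) (c : ℕ → ℂ) : linE m c ∈ B' := by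
  refine ⟨fun n x hx => ?_, fun x => ?_⟩
  · change ∑ l ∈ Finset.Ico m (n + 1), c l * x l = ∑ l ∈ Finset.Ico m n, c l * x l
    by_cases h : m ≤ n
    · rw [Finset.sum_Ico_succ_top h, hx.2 n le_rfl, mul_zero, add_zero]
    · rw [Finset.Ico_eq_empty (by omega), Finset.Ico_eq_empty (by omega)]
  · change (0 : ℂ) = ∑ l ∈ Finset.Ico m 0, c l * (0 : ℕ → ℂ) l
    simp

/-- No point of the spectrum of `B` has a compact neighbourhood. -/
theorem no_compact_nhds (φ : Spectrum B) (V : Set (Spectrum B)) (hV : V ∈ 𝓝 φ)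
    (hc : IsCompact V) : False := by
  obtain ⟨m, x, hx⟩ := char_eq φ
  -- perturbations
  let cl : ℝ → ℝ := fun t => max 0 (min t 1)
  have hcl : Continuous cl := by fun_prop
  have hcl0 : ∀ t, 0 ≤ cl t := fun t => le_max_left _ _
  have hcl1 : ∀ t, cl t ≤ 1 := fun t => max_le zero_le_one (min_le_right _ _)
  let ψ : ∀ j, m ≤ j → ℝ → Spectrum B := fun j hj t =>
    ev (j + 1) ⟨Function.update (x : ℕ → ℂ) j ((cl t : ℝ) : ℂ),
      upd_mem hj x.2 (cl t) (hcl0 t) (hcl1 t)⟩
  have hψc : ∀ j hj, Continuous (ψ j hj) := by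
    intro j hj
    refine continuous_char fun b => ?_
    change Continuous fun t => co (j + 1) b ⟨Function.update (x : ℕ → ℂ) j ((cl t : ℝ) : ℂ),
      upd_mem hj x.2 (cl t) (hcl0 t) (hcl1 t)⟩
    refine (map_continuous (co (j + 1) b)).comp (Continuous.subtype_mk ?_ _)
    exact continuous_const.update j (Complex.continuous_ofReal.comp hcl)
  have hψ0 : ∀ j hj, ψ j hj 0 = φ := by
    intro j hj
    apply DFunLike.ext
    intro b
    rw [hx b]
    change co (j + 1) b _ = _
    rw [← co_le (show m ≤ j + 1 by omega) b x x.2]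
    congr 1
    apply Subtype.ext
    have h0 : cl 0 = 0 := by simp [cl]
    simp only [h0, Complex.ofReal_zero]
    rw [Function.update_eq_self_iff]
    exact (x.2.2 j hj).symm
  have ht : ∀ j, ∃ t : ℝ, 0 < t ∧ t ≤ 1 ∧ ∀ hj : m ≤ j, ψ j hj t ∈ V := by
    intro j
    by_cases hj : m ≤ j
    · have h1 : ψ j hj ⁻¹' V ∈ 𝓝 (0 : ℝ) := by
        refine (hψc j hj).continuousAt.preimage_mem_nhds ?_
        rw [hψ0 j hj]; exact hV
      obtain ⟨δ, hδ, hsub⟩ := Metric.mem_nhds_iff.1 h1
      refine ⟨min (δ / 2) 1, by positivity, min_le_right _ _, fun _ => hsub ?_⟩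
      rw [Metric.mem_ball, dist_zero_right, Real.norm_of_nonneg (by positivity)]
      exact (min_le_left _ _).trans_lt (by linarith)
    · exact ⟨1, one_pos, le_rfl, fun h => absurd h hj⟩
  choose t ht0 ht1 htV using ht
  let G : B := mkB (linE m fun l => ((l / t l : ℝ) : ℂ)) (linE_mem m _)
  -- the transform of `G` is bounded on `V`
  obtain ⟨C, hC⟩ := (hc.image (continuous_eval_char G).norm).bddAbove
  have hval : ∀ j (hj : m ≤ j), ψ j hj (t j) G = j := by
    intro j hj
    change ∑ l ∈ Finset.Ico m (j + 1), ((l / t l : ℝ) : ℂ) *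
      Function.update (x : ℕ → ℂ) j ((cl (t j) : ℝ) : ℂ) l = j
    rw [Finset.sum_Ico_succ_top hj, Function.update_self]
    have h1 : ∑ l ∈ Finset.Ico m j, ((l / t l : ℝ) : ℂ) *
      Function.update (x : ℕ → ℂ) j ((cl (t j) : ℝ) : ℂ) l = 0 := by
      refine Finset.sum_eq_zero fun l hl => ?_
      have := Finset.mem_Ico.1 hl
      rw [Function.update_of_ne (by omega), x.2.2 l this.1, mul_zero]
    have h2 : cl (t j) = t j := by
      simp only [cl]
      rw [min_eq_left (ht1 j), max_eq_right (ht0 j).le]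
    rw [h1, zero_add, h2, ← Complex.ofReal_mul, div_mul_cancel₀ _ (ht0 j).ne']
    simp
  obtain ⟨j, hj⟩ := exists_nat_gt (max C m)
  have hmj : m ≤ j := by
    have : (m : ℝ) < j := (le_max_right _ _).trans_lt hj
    exact_mod_cast this.le
  have h1 : ‖ψ j hmj (t j) G‖ ≤ C := hC ⟨_, htV j hmj, rfl⟩
  rw [hval j hmj, Complex.norm_natCast] at h1
  exact absurd h1 (not_le.2 ((le_max_left _ _).trans_lt hj))

/-- an analytic subset of an open set of `ℂⁿ` is locally compact -/
lemma locallyCompact_analytic {n : ℕ} {W Z : Set (Fin n → ℂ)} (h : IsAnalyticSubset W Z) :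
    LocallyCompactSpace Z := by
  obtain ⟨hW, hZW, hloc⟩ := h
  have h1 : IsOpen (W \ Z) := by
    rw [isOpen_iff_mem_nhds]
    rintro w ⟨hw, hwZ⟩
    obtain ⟨N, hN, hwN, hNW, k, G, hG, heq⟩ := hloc w hw
    have h2 : w ∉ {z | z ∈ N ∧ ∀ i, G i z = 0} := by
      rw [← heq]
      exact fun h => hwZ h.1
    have h3 : ∃ i, G i w ≠ 0 := by
      by_contra hc
      push Not at hc
      exact h2 ⟨hwN, hc⟩
    obtain ⟨i, hi⟩ := h3
    have h4 : ContinuousAt (G i) w := (hG i).continuousOn.continuousAt (hN.mem_nhds hwN)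
    filter_upwards [h4.eventually_ne hi, hN.mem_nhds hwN] with z hz hzN
    refine ⟨hNW hzN, fun hzZ => ?_⟩
    have h5 : z ∈ Z ∩ N := ⟨hzZ, hzN⟩
    rw [heq] at h5
    exact hz (h5.2 i)
  have h2 : Z = W ∩ (W \ Z)ᶜ := by
    ext z
    simp only [Set.mem_inter_iff, Set.mem_compl_iff, Set.mem_sdiff, not_and, not_not]
    exact ⟨fun h => ⟨hZW h, fun _ => h⟩, fun h => h.2 h.1⟩
  have h3 : IsLocallyClosed Z := by
    rw [h2]
    exact hW.isLocallyClosed.inter h1.isClosed_compl.isLocallyClosed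
  exact h3.locallyCompactSpace

/-- every point of a reduced complex space has a compact neighbourhood -/
lemma exists_compact_nhds {Y : Type} [TopologicalSpace Y] (S : ReducedComplexSpace Y) (y : Y) :
    ∃ V ∈ 𝓝 y, IsCompact V := by
  obtain ⟨V, n, W, Z, ψ, hV, hy, hZ, -⟩ := S.chart y
  have := locallyCompact_analytic hZ
  have : LocallyCompactSpace V := ψ.isClosedEmbedding.locallyCompactSpace
  obtain ⟨L, hL, hLn⟩ := exists_compact_mem_nhds (⟨y, hy⟩ : V)
  refine ⟨Subtype.val '' L, ?_, hL.image continuous_subtype_val⟩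
  exact hV.isOpenEmbedding_subtypeVal.image_mem_nhds.2 hLn

theorem not_locallyStein_B : ¬ IsLocallyStein B := by
  rintro ⟨Y, hY, ⟨φ, hφ⟩, S, -⟩
  obtain ⟨V, hV, hVc⟩ := exists_compact_nhds S ⟨φ, hφ⟩
  refine no_compact_nhds φ (Subtype.val '' V) ?_ (hVc.image continuous_subtype_val)
  exact hY.isOpenEmbedding_subtypeVal.image_mem_nhds.2 hV

end Pool.Agent.V1171.LS
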