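import Mathlib

set_option autoImplicit false

/-!
# Locally Stein algebras: definitions
-/

open Topology WeakDual

namespace Pool.Agent.V1171.LS

/-- `A` is a uniform Fréchet algebra: its topology is complete and is given by an increasing
sequence of submultiplicative seminorms `p m` that separate points and satisfy
`p m (x ^ 2) = (p m x) ^ 2`. -/
def IsUniformFrechetAlgebra (A : Type) [CommRing A] [Algebra ℂ A] [TopologicalSpace A] : Prop :=
  ∃ p : ℕ → Seminorm ℂ A,
    Monotone p ∧
    (∀ m x y, p m (x * y) ≤ p m x * p m y) ∧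
    (∀ m x, p m (x * x) = p m x ^ 2) ∧
    (∀ x, (∀ m, p m x = 0) → x = 0) ∧
    (∀ x : A, (𝓝 x).HasBasis (fun i : ℕ × ℝ => 0 < i.2) (fun i => {y | p i.1 (y - x) < i.2})) ∧
    (∀ u : ℕ → A, (∀ m, ∀ ε > 0, ∃ N, ∀ i ≥ N, ∀ j ≥ N, p m (u i - u j) < ε) →
      ∃ x, Filter.Tendsto u Filter.atTop (𝓝 x))

/-- `W` is open in `ℂⁿ` and `Z` is an analytic subset of `W`: near every point of `W` it is the
set of common zeros of finitely many holomorphic functions. -/
def IsAnalyticSubset {n : ℕ} (W Z : Set (Fin n → ℂ)) : Prop :=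
  IsOpen W ∧ Z ⊆ W ∧ ∀ w ∈ W, ∃ N : Set (Fin n → ℂ), IsOpen N ∧ w ∈ N ∧ N ⊆ W ∧
    ∃ (k : ℕ) (G : Fin k → (Fin n → ℂ) → ℂ), (∀ i, DifferentiableOn ℂ (G i) N) ∧
      Z ∩ N = {z | z ∈ N ∧ ∀ i, G i z = 0}

/-- A reduced complex space structure on the topological space `Y`, given by its sheaf of
holomorphic functions: `hol U f` says that `f` is holomorphic on the open set `U` (only the values
of `f` on `U` matter). Being holomorphic is a local property, and every point of `Y` has an open
neighbourhood `V` homeomorphic, by some `ψ`, to an analytic subset `Z` of an open set of some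
`ℂⁿ`, such that the holomorphic functions on open subsets of `V` are exactly the functions that
are, locally, of the form `G ∘ ψ` with `G` holomorphic on an open set of `ℂⁿ`. -/
structure ReducedComplexSpace (Y : Type) [TopologicalSpace Y] where
  /-- `f` is holomorphic on the open set `U` -/
  hol : Set Y → (Y → ℂ) → Prop
  hol_local : ∀ (U : Set Y) (f : Y → ℂ), IsOpen U →
    (hol U f ↔ ∀ y ∈ U, ∃ V, IsOpen V ∧ y ∈ V ∧ V ⊆ U ∧ hol V f)
  chart : ∀ y : Y, ∃ (V : Set Y) (n : ℕ) (W Z : Set (Fin n → ℂ)) (ψ : V ≃ₜ Z),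
    IsOpen V ∧ y ∈ V ∧ IsAnalyticSubset W Z ∧
    ∀ (U : Set Y) (f : Y → ℂ), IsOpen U → U ⊆ V →
      (hol U f ↔ ∀ u : V, (u : Y) ∈ U →
        ∃ N : Set (Fin n → ℂ), IsOpen N ∧ (ψ u : Fin n → ℂ) ∈ N ∧
          ∃ G : (Fin n → ℂ) → ℂ, DifferentiableOn ℂ G N ∧
            ∀ v : V, (v : Y) ∈ U → (ψ v : Fin n → ℂ) ∈ N → f v = G (ψ v))

/-- The reduced complex space `S` on `Y` is a Stein space: `Y` is Hausdorff with countable
topology, the global holomorphic functions separate points, and the holomorphically convex hull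
of every compact set is compact. -/
structure IsStein {Y : Type} [TopologicalSpace Y] (S : ReducedComplexSpace Y) : Prop where
  t2 : T2Space Y
  countable : SecondCountableTopology Y
  separated : ∀ x y, x ≠ y → ∃ f, S.hol Set.univ f ∧ f x ≠ f y
  convex : ∀ K : Set Y, IsCompact K →
    IsCompact {y | ∀ f, S.hol Set.univ f → ∀ c : ℝ, (∀ x ∈ K, ‖f x‖ ≤ c) → ‖f y‖ ≤ c}

/-- The spectrum `M(A)`: the nonzero continuous complex homomorphisms of `A`. -/
def Spectrum (A : Type) [CommRing A] [Algebra ℂ A] [TopologicalSpace A] : Type :=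
  characterSpace ℂ A

/-- the Gel'fand topology on the spectrum (pointwise convergence on `A`) -/
noncomputable instance instTop (A : Type) [CommRing A] [Algebra ℂ A] [TopologicalSpace A] :
    TopologicalSpace (Spectrum A) := inferInstanceAs (TopologicalSpace (characterSpace ℂ A))

/-- the Gel'fand transform `â(φ) = φ(a)` -/
noncomputable def gelfand {A : Type} [CommRing A] [Algebra ℂ A] [TopologicalSpace A] (a : A)
    (φ : Spectrum A) : ℂ := (show characterSpace ℂ A from φ) a

/-- No point of `Z` has a compact neighbourhood. -/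
def NowhereLocallyCompact (Z : Type) [TopologicalSpace Z] : Prop :=
  ∀ z : Z, ∀ V ∈ 𝓝 z, ¬ IsCompact V

/-- The set `Y` of points of the spectrum `M(A)` carries a structure `S` of reduced Stein space, for its Gel'fand
topology, such that all Gel'fand transforms `â` are holomorphic on `Y` and the functions `â|Y`
are dense in the algebra of all holomorphic functions on `Y` for the compact-open topology, i.e.
the completion of `Â|Y` in the compact-open topology is `Hol(Y)`. -/
def SteinOn (A : Type) [CommRing A] [Algebra ℂ A] [TopologicalSpace A]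
    (Y : Set (Spectrum A)) : Prop :=
  ∃ S : ReducedComplexSpace Y, IsStein S ∧
    (∀ a : A, S.hol Set.univ (fun y : Y => gelfand a y)) ∧
    ∀ h : Y → ℂ, S.hol Set.univ h → ∀ K : Set Y, IsCompact K → ∀ ε > 0,
      ∃ a : A, ∀ y ∈ K, ‖gelfand a y - h y‖ < ε

/-- `A` is locally Stein. -/
def IsLocallyStein (A : Type) [CommRing A] [Algebra ℂ A] [TopologicalSpace A] : Prop :=
  ∃ Y : Set (Spectrum A), IsOpen Y ∧ Y.Nonempty ∧ SteinOn A Y

end Pool.Agent.V1171.LS
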