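import Pool.Agent.V1171.LS.Defs

set_option autoImplicit false

open Topology WeakDual Filter

namespace Pool.Agent.V1171.LS

section
variable (X : ℕ → Type) [∀ n, NormedCommRing (X n)] [∀ n, NormedAlgebra ℂ (X n)]

/-- the seminorm `max_{i ≤ m} ‖F i‖` on the product -/
noncomputable def pm (m : ℕ) : Seminorm ℂ (∀ n, X n) :=
  (Finset.range (m + 1)).sup (fun i => (normSeminorm ℂ (X i)).comp (LinearMap.proj i))

variable {X}

lemma le_pm {m : ℕ} (F : ∀ n, X n) {i : ℕ} (hi : i ≤ m) : ‖F i‖ ≤ pm X m F := by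
  have h : i ∈ Finset.range (m + 1) := Finset.mem_range.2 (by omega)
  exact Seminorm.le_finset_sup_apply
    (p := fun i => (normSeminorm ℂ (X i)).comp (LinearMap.proj i)) (x := F) h

lemma pm_lt {m : ℕ} {F : ∀ n, X n} {c : ℝ} (hc : 0 < c) :
    pm X m F < c ↔ ∀ i ≤ m, ‖F i‖ < c := by
  constructor
  · exact fun h i hi => (le_pm F hi).trans_lt h
  · intro h
    unfold pm
    refine Seminorm.finset_sup_apply_lt hc fun i hi => ?_
    exact h i (by have := Finset.mem_range.1 hi; omega)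

lemma pm_le {m : ℕ} {F : ∀ n, X n} {c : ℝ} (hc : 0 ≤ c) :
    pm X m F ≤ c ↔ ∀ i ≤ m, ‖F i‖ ≤ c := by
  constructor
  · exact fun h i hi => (le_pm F hi).trans h
  · intro h
    unfold pm
    refine Seminorm.finset_sup_apply_le hc fun i hi => ?_
    exact h i (by have := Finset.mem_range.1 hi; omega)

lemma pm_mul (m : ℕ) (F G : ∀ n, X n) : pm X m (F * G) ≤ pm X m F * pm X m G := by
  rw [pm_le (by positivity)]
  intro i hi
  calc ‖(F * G) i‖ ≤ ‖F i‖ * ‖G i‖ := norm_mul_le _ _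
    _ ≤ _ := mul_le_mul (le_pm F hi) (le_pm G hi) (norm_nonneg _) (apply_nonneg _ _)

lemma pm_sq (hu : ∀ n (x : X n), ‖x * x‖ = ‖x‖ ^ 2) (m : ℕ) (F : ∀ n, X n) :
    pm X m (F * F) = pm X m F ^ 2 := by
  refine le_antisymm (by simpa [sq] using pm_mul m F F) ?_
  have h : pm X m F ≤ Real.sqrt (pm X m (F * F)) := by
    rw [pm_le (Real.sqrt_nonneg _)]
    intro i hi
    refine Real.le_sqrt_of_sq_le ?_
    rw [← hu i (F i)]
    exact le_pm (F * F) hi
  calc pm X m F ^ 2 ≤ (Real.sqrt (pm X m (F * F))) ^ 2 :=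
        pow_le_pow_left₀ (apply_nonneg _ _) h 2
    _ = _ := Real.sq_sqrt (apply_nonneg _ _)

lemma basis (x : ∀ n, X n) :
    (𝓝 x).HasBasis (fun i : ℕ × ℝ => 0 < i.2) (fun i => {y | pm X i.1 (y - x) < i.2}) := by
  rw [Filter.hasBasis_iff]
  intro t
  constructor
  · intro ht
    rw [nhds_pi, (Filter.hasBasis_pi (fun i => Metric.nhds_basis_ball (x := x i))).mem_iff] at ht
    obtain ⟨⟨I, r⟩, ⟨hI, hr⟩, hsub⟩ := ht
    obtain ⟨M, hM⟩ := hI.bddAbove
    obtain ⟨ε, hε, hε'⟩ : ∃ ε > 0, ∀ i ∈ I, ε ≤ r i := by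
      rcases I.eq_empty_or_nonempty with h | h
      · exact ⟨1, one_pos, by simp [h]⟩
      · obtain ⟨i0, hi0, hmin⟩ := hI.exists_minimalFor r I h
        refine ⟨r i0, hr i0 hi0, fun i hi => ?_⟩
        by_contra hc
        rw [not_le] at hc
        exact absurd (hmin hi hc.le) (not_le.2 hc)
    refine ⟨(M, ε), hε, fun y hy => hsub ?_⟩
    rw [Set.mem_ofPred_eq, pm_lt hε] at hy
    rw [Set.mem_pi]
    intro i hi
    rw [Metric.mem_ball, dist_eq_norm]
    exact (hy i (hM hi)).trans_le (hε' i hi)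
  · rintro ⟨⟨m, ε⟩, hε, hsub⟩
    refine Filter.mem_of_superset ?_ hsub
    have h1 : {y : ∀ n, X n | pm X m (y - x) < ε} =
        ⋂ i ∈ Finset.range (m + 1), {y | ‖y i - x i‖ < ε} := by
      ext y
      simp only [Set.mem_ofPred_eq, pm_lt hε, Finset.mem_range, Nat.lt_succ_iff, Set.mem_iInter]
      rfl
    rw [h1, Filter.biInter_finset_mem]
    intro i _
    have h2 : Continuous fun y : ∀ n, X n => ‖y i - x i‖ :=
      ((continuous_apply i).sub continuous_const).norm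
    refine h2.continuousAt.preimage_mem_nhds (Iio_mem_nhds ?_)
    simpa using hε

theorem frechet [∀ n, CompleteSpace (X n)] (hu : ∀ n (x : X n), ‖x * x‖ = ‖x‖ ^ 2)
    (A : Subalgebra ℂ (∀ n, X n)) (hA : IsClosed (A : Set (∀ n, X n))) :
    IsUniformFrechetAlgebra A := by
  refine ⟨fun m => (pm X m).comp A.val.toLinearMap, ?_, ?_, ?_, ?_, ?_, ?_⟩
  · intro m m' h
    intro x
    change pm X m x ≤ pm X m' x
    rw [pm_le (apply_nonneg _ _)]
    exact fun i hi => le_pm _ (hi.trans h)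
  · intro m x y
    exact pm_mul m (x : ∀ n, X n) y
  · intro m x
    exact pm_sq hu m (x : ∀ n, X n)
  · intro x hx
    ext i
    have := le_pm (m := i) (x : ∀ n, X n) le_rfl
    have h2 : pm X i (x : ∀ n, X n) = 0 := hx i
    rw [h2] at this
    exact norm_le_zero_iff.1 this
  · intro x
    rw [nhds_subtype]
    exact (basis (x : ∀ n, X n)).comap _
  · intro u hu'
    have h1 : ∀ n, ∃ l, Tendsto (fun i => (u i : ∀ n, X n) n) atTop (𝓝 l) := by
      intro n
      refine cauchySeq_tendsto_of_complete (Metric.cauchySeq_iff.2 fun ε hε => ?_)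
      obtain ⟨N, hN⟩ := hu' n ε hε
      refine ⟨N, fun i hi j hj => ?_⟩
      have h2 : pm X n ((u i : ∀ n, X n) - u j) < ε := hN i hi j hj
      rw [dist_eq_norm]
      exact (pm_lt hε).1 h2 n le_rfl
    choose l hl using h1
    have h2 : Tendsto (fun i => (u i : ∀ n, X n)) atTop (𝓝 l) := tendsto_pi_nhds.2 hl
    have h3 : l ∈ A := hA.mem_of_tendsto h2 (Filter.Eventually.of_forall fun i => (u i).2)
    exact ⟨⟨l, h3⟩, tendsto_subtype_rng.2 h2⟩

end

end Pool.Agent.V1171.LS
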