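import Pool.Agent.V1171.LS.Space

set_option autoImplicit false
set_option synthInstance.maxHeartbeats 400000

open Topology WeakDual Filter

namespace Pool.Agent.V1171.LS

section API

variable {R : Type} [CommRing R] [Algebra ℂ R] [TopologicalSpace R]

noncomputable instance : FunLike (Spectrum R) R ℂ :=
  inferInstanceAs (FunLike (characterSpace ℂ R) R ℂ)

instance : AlgHomClass (Spectrum R) ℂ R ℂ :=
  inferInstanceAs (AlgHomClass (characterSpace ℂ R) ℂ R ℂ)

instance : ContinuousMapClass (Spectrum R) R ℂ :=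
  inferInstanceAs (ContinuousMapClass (characterSpace ℂ R) R ℂ)

instance : T2Space (Spectrum R) := inferInstanceAs (T2Space (characterSpace ℂ R))

lemma gelfand_apply (a : R) (φ : Spectrum R) : gelfand a φ = φ a := rfl

end API

/-- a continuous algebra homomorphism to `ℂ` as a point of the spectrum -/
noncomputable def mkChar' {R : Type} [CommRing R] [Algebra ℂ R] [TopologicalSpace R]
    (f : R →ₐ[ℂ] ℂ) (hf : Continuous f) : characterSpace ℂ R :=
  ⟨({ f.toLinearMap with cont := hf } : R →L[ℂ] ℂ), by
    constructor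
    · intro h
      have h1 : (({ f.toLinearMap with cont := hf } : R →L[ℂ] ℂ) : R → ℂ) 1 = 0 := by
        exact congrArg (fun g : WeakDual ℂ R => g 1) h
      have h2 : f 1 = 0 := h1
      rw [map_one] at h2
      exact one_ne_zero h2
    · exact map_mul f⟩

/-- a continuous algebra homomorphism to `ℂ` as a point of the spectrum -/
noncomputable def mkChar {R : Type} [CommRing R] [Algebra ℂ R] [TopologicalSpace R]
    (f : R →ₐ[ℂ] ℂ) (hf : Continuous f) : Spectrum R := mkChar' f hf

lemma mkChar_apply {R : Type} [CommRing R] [Algebra ℂ R] [TopologicalSpace R]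
    (f : R →ₐ[ℂ] ℂ) (hf : Continuous f) (a : R) : mkChar f hf a = f a := rfl

lemma continuous_eval_char {R : Type} [CommRing R] [Algebra ℂ R] [TopologicalSpace R] (a : R) :
    Continuous fun φ : Spectrum R => φ a :=
  show Continuous fun φ : characterSpace ℂ R => φ a from
  (WeakDual.eval_continuous a).comp continuous_induced_dom

lemma continuous_char {R T : Type} [CommRing R] [Algebra ℂ R] [TopologicalSpace R]
    [TopologicalSpace T] {f : T → Spectrum R} (h : ∀ a, Continuous fun t => f t a) :
    Continuous f := by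
  have h1 : Continuous (show T → characterSpace ℂ R from f) := by
    rw [continuous_induced_rng]
    exact WeakDual.continuous_of_continuous_eval h
  exact h1

/-- coordinates of an element of `B` -/
noncomputable def co (n : ℕ) : B →ₐ[ℂ] C(K n, ℂ) :=
  (Pi.evalAlgHom ℂ X (n + 1)).comp (A.val.comp B.val)

lemma continuous_co (n : ℕ) : Continuous (co n) :=
  (continuous_apply (n + 1)).comp (continuous_subtype_val.comp continuous_subtype_val)

lemma co_succ (n : ℕ) (b : B) (x : ℕ → ℂ) (hx : x ∈ K n) :
    co (n + 1) b ⟨x, K_mono (Nat.le_succ n) hx⟩ = co n b ⟨x, hx⟩ := b.2.1 n x hx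

lemma co_le {m n : ℕ} (h : m ≤ n) (b : B) (x : ℕ → ℂ) (hx : x ∈ K m) :
    co n b ⟨x, K_mono h hx⟩ = co m b ⟨x, hx⟩ := by
  induction n, h using Nat.le_induction with
  | base => rfl
  | succ n h ih => rw [← ih]; exact co_succ n b x (K_mono h hx)

/-- an element of `B` -/
noncomputable def mkB (F : E) (hF : F ∈ B') : B := ⟨⟨F, B'_le_A hF⟩, hF⟩

/-- truncation -/
noncomputable def tr (m : ℕ) (x : ℕ → ℂ) : ℕ → ℂ := fun j => if j < m then x j else 0

lemma tr_mem {m n : ℕ} {x : ℕ → ℂ} (hx : x ∈ K n) : tr m x ∈ K m := by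
  refine ⟨fun j => ?_, fun j hj => ?_⟩
  · unfold tr
    split_ifs
    · exact hx.1 j
    · simp
  · unfold tr
    rw [if_neg (not_lt.2 hj)]

lemma tr_eq {m : ℕ} {x : ℕ → ℂ} (hx : x ∈ K m) : tr m x = x := by
  funext j
  unfold tr
  split_ifs with h
  · rfl
  · exact (hx.2 j (not_lt.1 h)).symm

lemma continuous_tr (m : ℕ) : Continuous (tr m) := by
  refine continuous_pi fun j => ?_
  unfold tr
  split_ifs
  · exact continuous_apply j
  · exact continuous_const

/-- truncation `K n → K m` -/
noncomputable def trC (m n : ℕ) : C(K n, K m) :=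
  ⟨fun x => ⟨tr m x, tr_mem x.2⟩, ((continuous_tr m).comp continuous_subtype_val).subtype_mk _⟩

/-- extension of a function on `K m` by truncation -/
noncomputable def extE (m : ℕ) (g : C(K m, ℂ)) : E
  | 0 => ContinuousMap.const _ (g ⟨0, zero_mem m⟩)
  | n + 1 => g.comp (trC m n)

lemma extE_mem (m : ℕ) (g : C(K m, ℂ)) : extE m g ∈ B' := by
  refine ⟨fun n x hx => rfl, fun x => ?_⟩
  change g ⟨0, zero_mem m⟩ = g ⟨tr m 0, _⟩
  congr 1
  apply Subtype.ext
  exact (tr_eq (zero_mem m)).symm

/-- the extension homomorphism -/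
noncomputable def ext (m : ℕ) : C(K m, ℂ) →ₐ[ℂ] B where
  toFun g := mkB (extE m g) (extE_mem m g)
  map_one' := by
    apply Subtype.ext; apply Subtype.ext; funext n; cases n <;> rfl
  map_mul' g h := by
    apply Subtype.ext; apply Subtype.ext; funext n; cases n <;> rfl
  map_zero' := by
    apply Subtype.ext; apply Subtype.ext; funext n; cases n <;> rfl
  map_add' g h := by
    apply Subtype.ext; apply Subtype.ext; funext n; cases n <;> rfl
  commutes' c := by
    apply Subtype.ext; apply Subtype.ext; funext n; cases n <;> rfl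

lemma continuous_ext (m : ℕ) : Continuous (ext m) := by
  rw [continuous_induced_rng, continuous_induced_rng]
  refine continuous_pi fun n => ?_
  cases n with
  | zero =>
    change Continuous fun g : C(K m, ℂ) => ContinuousMap.const (K 1) (g ⟨0, zero_mem m⟩)
    exact ContinuousMap.continuous_const'.comp (continuous_eval_const _)
  | succ n => exact ContinuousMap.continuous_precomp (trC m n)

lemma co_ext {i m : ℕ} (g : C(K m, ℂ)) (x : K i) :
    co i (ext m g) x = g ⟨tr m x, tr_mem x.2⟩ := rfl

/-- characters of `B` only see finitely many coordinates -/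
lemma exists_bound (φ : Spectrum B) :
    ∃ m, ∀ b : B, (∀ i ≤ m, co i b = 0) → φ b = 0 := by
  have h0 : {b : B | ‖φ b‖ < 1} ∈ 𝓝 (0 : B) := by
    have hc : Continuous fun b : B => ‖φ b‖ := (map_continuous φ).norm
    refine hc.continuousAt.preimage_mem_nhds (Iio_mem_nhds ?_)
    simp
  rw [nhds_subtype, nhds_subtype, Filter.comap_comap] at h0
  obtain ⟨⟨M, ε⟩, hε, hsub⟩ := ((basis (X := X) _).comap _).mem_iff.1 h0
  refine ⟨M, fun b hb => ?_⟩
  have hz : ∀ i, i ≤ M → ((b : A) : E) i = 0 := by
    intro i hi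
    cases i with
    | zero =>
      ext x
      refine (b.2.2 x).trans ?_
      have h1 := congrArg (fun f : C(K 0, ℂ) => f ⟨0, zero_mem 0⟩) (hb 0 (Nat.zero_le _))
      exact h1
    | succ i => exact hb i (by omega)
  by_contra hne
  have h1 : ∀ c : ℂ, ‖φ (c • b)‖ < 1 := by
    intro c
    have h2 : c • b ∈ {b : B | ‖φ b‖ < 1} := by
      apply hsub
      change pm X M (((c • b : B) : A) - 0 : E) < ε
      rw [pm_lt hε]
      intro i hi
      have h3 : (((c • b : B) : A) - 0 : E) i = c • ((b : A) : E) i := by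
        rw [sub_zero]; rfl
      rw [h3, hz i hi, smul_zero, norm_zero]
      exact hε
    exact h2
  have h2 := h1 (φ b)⁻¹
  rw [map_smul, smul_eq_mul, inv_mul_cancel₀ hne, norm_one] at h2
  exact lt_irrefl _ h2

/-- every character of `B` is the evaluation at a point of some `K m` -/
lemma char_eq (φ : Spectrum B) : ∃ m, ∃ x : K m, ∀ b, φ b = co m b x := by
  obtain ⟨m, hm⟩ := exists_bound φ
  let f : C(K m, ℂ) →ₐ[ℂ] ℂ := (AlgHomClass.toAlgHom φ).comp (ext m)
  have hf : Continuous f := (map_continuous φ).comp (continuous_ext m)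
  obtain ⟨x, hx⟩ := (CharacterSpace.continuousMapEval_bijective (X := K m) (𝕜 := ℂ)).2
    (mkChar' f hf)
  refine ⟨m, x, fun b => ?_⟩
  have h1 : φ (ext m (co m b)) = co m b x := by
    have h2 : CharacterSpace.continuousMapEval (K m) ℂ x (co m b) = mkChar' f hf (co m b) := by
      rw [hx]
    rw [CharacterSpace.continuousMapEval_apply_apply] at h2
    exact h2.symm
  rw [← h1, ← sub_eq_zero, ← map_sub]
  apply hm
  intro i hi
  ext y
  rw [map_sub, ContinuousMap.sub_apply, co_ext, ContinuousMap.zero_apply, sub_eq_zero,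
    ← co_le hi b y y.2]
  congr 1
  apply Subtype.ext
  exact (tr_eq (K_mono hi y.2)).symm

/-- evaluation of elements of `B` at a point of `K n` -/
noncomputable def ev (n : ℕ) (x : K n) : Spectrum B :=
  mkChar ((ContinuousMap.evalAlgHom ℂ ℂ x).comp (co n))
    ((continuous_eval_const x).comp (continuous_co n))

lemma ev_apply (n : ℕ) (x : K n) (b : B) : ev n x b = co n b x := rfl

end Pool.Agent.V1171.LS
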