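import Pool.Agent.V1171.LS.Frechet

set_option autoImplicit false

open Topology WeakDual Filter

namespace Pool.Agent.V1171.LS

/-- the closed unit polydisc of `ℂⁿ`, as a set of sequences vanishing from the index `n` on -/
def K (n : ℕ) : Set (ℕ → ℂ) := {x | (∀ j, ‖x j‖ ≤ 1) ∧ ∀ j, n ≤ j → x j = 0}

lemma K_eq (n : ℕ) :
    K n = Set.pi Set.univ (fun j => if j < n then Metric.closedBall (0:ℂ) 1 else {0}) := by
  ext x
  simp only [K, Set.mem_ofPred_eq, Set.mem_pi, Set.mem_univ, forall_true_left]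
  constructor
  · rintro ⟨h1, h2⟩ j
    split_ifs with h
    · simpa using h1 j
    · simpa using h2 j (not_lt.1 h)
  · intro h
    refine ⟨fun j => ?_, fun j hj => ?_⟩
    · have := h j
      split_ifs at this with h'
      · simpa using this
      · have : x j = 0 := by simpa using this
        simp [this]
    · have := h j
      rw [if_neg (not_lt.2 hj)] at this
      simpa using this

lemma isCompact_K (n : ℕ) : IsCompact (K n) := by
  rw [K_eq]
  refine isCompact_univ_pi fun j => ?_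
  split_ifs
  · exact isCompact_closedBall _ _
  · exact isCompact_singleton

instance (n : ℕ) : CompactSpace (K n) := isCompact_iff_compactSpace.1 (isCompact_K n)

lemma K_mono {m n : ℕ} (h : m ≤ n) : K m ⊆ K n := fun _ hx =>
  ⟨hx.1, fun j hj => hx.2 j (h.trans hj)⟩

lemma zero_mem (n : ℕ) : (0 : ℕ → ℂ) ∈ K n := ⟨by simp, by simp⟩

/-- index shift -/
def idx : ℕ → ℕ
  | 0 => 1
  | n + 1 => n

/-- the factors -/
abbrev X (n : ℕ) : Type := C(K (idx n), ℂ)

/-- the big product -/
abbrev E : Type := ∀ n, X n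

lemma X_sq (n : ℕ) (f : X n) : ‖f * f‖ = ‖f‖ ^ 2 := by
  refine le_antisymm (by simpa [sq] using norm_mul_le f f) ?_
  have h : ‖f‖ ≤ Real.sqrt ‖f * f‖ := by
    rw [ContinuousMap.norm_le _ (Real.sqrt_nonneg _)]
    intro x
    refine Real.le_sqrt_of_sq_le ?_
    have h1 := ContinuousMap.norm_coe_le_norm (f * f) x
    rw [ContinuousMap.mul_apply, norm_mul] at h1
    rw [sq]; exact h1
  calc ‖f‖ ^ 2 ≤ (Real.sqrt ‖f * f‖) ^ 2 := pow_le_pow_left₀ (norm_nonneg _) h 2
    _ = _ := Real.sq_sqrt (norm_nonneg _)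

/-- the coordinate `x ↦ x 0` on the disc `K 1` -/
noncomputable def z0 : X 0 := ⟨fun x => (x : ℕ → ℂ) 0, (continuous_apply 0).comp continuous_subtype_val⟩

/-- the closure of the polynomials in `z0` (the disc algebra) -/
noncomputable def P : Subalgebra ℂ (X 0) := (Algebra.adjoin ℂ {z0}).topologicalClosure

/-- The algebra `A`: the disc algebra times all the `C(K n)` -/
noncomputable def A : Subalgebra ℂ E := P.comap (Pi.evalAlgHom ℂ X 0)

lemma mem_A {F : E} : F ∈ A ↔ F 0 ∈ P := Iff.rfl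

lemma isClosed_A : IsClosed (A : Set E) := by
  have h : IsClosed (P : Set (X 0)) := Subalgebra.isClosed_topologicalClosure _
  exact h.preimage (continuous_apply 0)

/-- The compatible families: continuous functions on the union of the polydiscs; the first
component is the constant given by the value at the origin. -/
def B' : Subalgebra ℂ E where
  carrier := {F | (∀ n, ∀ (x : ℕ → ℂ) (hx : x ∈ K n),
      F (n + 2) ⟨x, K_mono (Nat.le_succ n) hx⟩ = F (n + 1) ⟨x, hx⟩) ∧
    ∀ x : K (idx 0), F 0 x = F 1 ⟨0, zero_mem 0⟩}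
  mul_mem' := by
    rintro F G ⟨h1, h2⟩ ⟨h3, h4⟩
    refine ⟨fun n x hx => ?_, fun x => ?_⟩
    · simp only [Pi.mul_apply, ContinuousMap.mul_apply]
      rw [h1 n x hx, h3 n x hx]
    · change F 0 x * G 0 x = F 1 ⟨0, zero_mem 0⟩ * G 1 ⟨0, zero_mem 0⟩
      rw [h2, h4]
  add_mem' := by
    rintro F G ⟨h1, h2⟩ ⟨h3, h4⟩
    refine ⟨fun n x hx => ?_, fun x => ?_⟩
    · simp only [Pi.add_apply, ContinuousMap.add_apply]
      rw [h1 n x hx, h3 n x hx]
    · change F 0 x + G 0 x = F 1 ⟨0, zero_mem 0⟩ + G 1 ⟨0, zero_mem 0⟩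
      rw [h2, h4]
  algebraMap_mem' := by
    intro c
    exact ⟨fun n x hx => rfl, fun x => rfl⟩

lemma isClosed_B' : IsClosed (B' : Set E) := by
  have h1 : (B' : Set E) = (⋂ n, ⋂ x, ⋂ hx : x ∈ K n,
      {F : E | F (n + 2) ⟨x, K_mono (Nat.le_succ n) hx⟩ = F (n + 1) ⟨x, hx⟩}) ∩
      ⋂ x : K (idx 0), {F : E | F 0 x = F 1 ⟨0, zero_mem 0⟩} := by
    ext F
    simp only [Set.mem_inter_iff, Set.mem_iInter, Set.mem_ofPred_eq]
    rfl
  have hc : ∀ n (x : K (idx n)), Continuous fun F : E => F n x := fun n x =>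
    (continuous_eval_const x).comp (continuous_apply n)
  rw [h1]
  refine IsClosed.inter ?_ ?_
  · refine isClosed_iInter fun n => isClosed_iInter fun x => isClosed_iInter fun hx => ?_
    exact isClosed_eq (hc (n + 2) _) (hc (n + 1) _)
  · exact isClosed_iInter fun x => isClosed_eq (hc 0 _) (hc 1 _)

lemma B'_le_A : B' ≤ A := by
  rintro F ⟨_, h2⟩
  rw [mem_A]
  have : F 0 = algebraMap ℂ (X 0) (F 1 ⟨0, zero_mem 0⟩) := by
    ext x
    rw [h2 x]
    rfl
  rw [this]
  exact P.algebraMap_mem _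

/-- `B` as a subalgebra of `A` -/
noncomputable def B : Subalgebra ℂ A := B'.comap A.val

lemma isClosed_B : IsClosed (B : Set A) := isClosed_B'.preimage continuous_subtype_val

theorem frechet_A : IsUniformFrechetAlgebra A := frechet X_sq A isClosed_A

end Pool.Agent.V1171.LS
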