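import Pool.Agent.V1171.LS.NotB

set_option autoImplicit false
set_option synthInstance.maxHeartbeats 400000

open Topology WeakDual Filter

namespace Pool.Agent.V1171.LS

/-- `P → A`, into the factor `0` -/
noncomputable def io (g : P) : A := ⟨Pi.single 0 (g : X 0), by
  rw [mem_A, Pi.single_eq_same]; exact g.2⟩

lemma continuous_io : Continuous io :=
  ((continuous_single 0).comp continuous_subtype_val).subtype_mk _

lemma io_mul (f g : P) : io (f * g) = io f * io g := by
  apply Subtype.ext
  change Pi.single 0 ((f : X 0) * g) = (Pi.single 0 (f : X 0) : E) * Pi.single 0 (g : X 0)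
  rw [Pi.single_mul]

lemma io_add (f g : P) : io (f + g) = io f + io g := by
  apply Subtype.ext
  change Pi.single 0 ((f : X 0) + g) = (Pi.single 0 (f : X 0) : E) + Pi.single 0 (g : X 0)
  rw [Pi.single_add]

lemma io_smul (c : ℂ) (g : P) : io (c • g) = c • io g := by
  apply Subtype.ext
  change Pi.single 0 (c • (g : X 0)) = c • (Pi.single 0 (g : X 0) : E)
  rw [Pi.single_smul]

lemma z0_mem : z0 ∈ P :=
  Subalgebra.le_topologicalClosure _ (Algebra.subset_adjoin rfl)

/-- the idempotent of the factor `0` -/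
noncomputable def e0 : A := io 1

/-- the coordinate -/
noncomputable def zA : A := io ⟨z0, z0_mem⟩

lemma e0_mul : e0 * e0 = e0 := by
  unfold e0
  rw [← io_mul, one_mul]

lemma mul_e0 (F : A) : F * e0 = io ⟨(F : E) 0, F.2⟩ := by
  apply Subtype.ext
  funext n
  cases n with
  | zero =>
    change (F : E) 0 * (Pi.single 0 (1 : X 0) : E) 0 = (Pi.single 0 ((F : E) 0) : E) 0
    rw [Pi.single_eq_same, Pi.single_eq_same, mul_one]
  | succ n =>
    change (F : E) (n + 1) * (Pi.single 0 (1 : X 0) : E) (n + 1) =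
      (Pi.single 0 ((F : E) 0) : E) (n + 1)
    rw [Pi.single_eq_of_ne (by simp), Pi.single_eq_of_ne (by simp), mul_zero]

/-- the point of the disc `K 1` with coordinate `w` -/
noncomputable def pt (w : ℂ) (hw : ‖w‖ ≤ 1) : K (idx 0) :=
  ⟨Pi.single 0 w, by
    refine ⟨fun j => ?_, fun j hj => ?_⟩
    · by_cases h : j = 0
      · subst h; simpa using hw
      · rw [Pi.single_eq_of_ne h]; simp
    · rw [Pi.single_eq_of_ne (by change 1 ≤ j at hj; omega)]⟩

lemma z0_pt (w : ℂ) (hw : ‖w‖ ≤ 1) : z0 (pt w hw) = w := by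
  change (Pi.single 0 w : ℕ → ℂ) 0 = w
  simp

/-- characters not killing `e0` are evaluations at a point of the disc -/
lemma char_A {φ : Spectrum A} (h0 : φ e0 ≠ 0) (hw : ‖φ zA‖ ≤ 1) (F : A) :
    φ F = (F : E) 0 (pt (φ zA) hw) := by
  have h1 : φ e0 = 1 := by
    have h2 : φ e0 * φ e0 = φ e0 := by rw [← map_mul, e0_mul]
    exact mul_left_cancel₀ h0 (by rw [h2, mul_one])
  -- on polynomials
  have hpol : ∀ g : X 0, g ∈ Algebra.adjoin ℂ {z0} → ∀ hg : g ∈ P,
      φ (io ⟨g, hg⟩) = g (pt (φ zA) hw) := by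
    intro g hg
    induction hg using Algebra.adjoin_induction with
    | mem x hx =>
      intro hg
      have hx' : x = z0 := hx
      subst hx'
      rw [z0_pt]
      rfl
    | algebraMap c =>
      intro hg
      have h3 : io ⟨algebraMap ℂ (X 0) c, hg⟩ = c • e0 := by
        unfold e0
        rw [← io_smul]
        congr 1
        apply Subtype.ext
        change algebraMap ℂ (X 0) c = c • (1 : X 0)
        rw [Algebra.algebraMap_eq_smul_one]
      rw [h3, map_smul, h1]
      change c * 1 = c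
      rw [mul_one]
    | add x y hx hy ihx ihy =>
      intro hg
      have hx' : x ∈ P := Subalgebra.le_topologicalClosure _ hx
      have hy' : y ∈ P := Subalgebra.le_topologicalClosure _ hy
      have h3 : io ⟨x + y, hg⟩ = io ⟨x, hx'⟩ + io ⟨y, hy'⟩ := io_add ⟨x, hx'⟩ ⟨y, hy'⟩
      rw [h3, map_add, ihx hx', ihy hy']
      rfl
    | mul x y hx hy ihx ihy =>
      intro hg
      have hx' : x ∈ P := Subalgebra.le_topologicalClosure _ hx
      have hy' : y ∈ P := Subalgebra.le_topologicalClosure _ hy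
      have h3 : io ⟨x * y, hg⟩ = io ⟨x, hx'⟩ * io ⟨y, hy'⟩ := io_mul ⟨x, hx'⟩ ⟨y, hy'⟩
      rw [h3, map_mul, ihx hx', ihy hy']
      rfl
  -- on the closure
  have hP : ∀ g : P, φ (io g) = (g : X 0) (pt (φ zA) hw) := by
    intro g
    have hg : (g : X 0) ∈ closure (Algebra.adjoin ℂ {z0} : Set (X 0)) := g.2
    rw [mem_closure_iff_seq_limit] at hg
    obtain ⟨a, ha, hlim⟩ := hg
    let a' : ℕ → P := fun n => ⟨a n, Subalgebra.le_topologicalClosure _ (ha n)⟩
    have hlim' : Tendsto a' atTop (𝓝 g) := tendsto_subtype_rng.2 hlim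
    have h3 : Tendsto (fun n => φ (io (a' n))) atTop (𝓝 (φ (io g))) :=
      (((map_continuous φ).comp continuous_io).tendsto g).comp hlim'
    have h4 : Tendsto (fun n => (a n) (pt (φ zA) hw)) atTop (𝓝 ((g : X 0) (pt (φ zA) hw))) :=
      ((continuous_eval_const (pt (φ zA) hw)).tendsto (g : X 0)).comp hlim
    refine tendsto_nhds_unique h3 (h4.congr fun n => ?_)
    exact (hpol (a n) (ha n) _).symm
  have h5 : φ F = φ (F * e0) := by rw [map_mul, h1, mul_one]
  rw [h5, mul_e0, hP]

/-- evaluation of an element of `A` at a point of the disc -/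
noncomputable def evA (x : K (idx 0)) : Spectrum A :=
  mkChar ((ContinuousMap.evalAlgHom ℂ ℂ x).comp ((Pi.evalAlgHom ℂ X 0).comp A.val))
    ((continuous_eval_const x).comp ((continuous_apply 0).comp continuous_subtype_val))

lemma evA_apply (x : K (idx 0)) (F : A) : evA x F = (F : E) 0 x := rfl

/-- the open disc in the spectrum of `A` -/
def Y : Set (Spectrum A) := {φ | ‖φ zA‖ < 1 ∧ φ e0 ≠ 0}

lemma isOpen_Y : IsOpen Y := by
  have h1 : IsOpen {φ : Spectrum A | ‖φ zA‖ < 1} :=
    isOpen_lt (continuous_eval_char zA).norm continuous_const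
  have h2 : IsOpen {φ : Spectrum A | φ e0 ≠ 0} :=
    isOpen_ne_fun (continuous_eval_char e0) continuous_const
  exact h1.inter h2

lemma evA_zA (w : ℂ) (hw : ‖w‖ ≤ 1) : evA (pt w hw) zA = w := by
  rw [evA_apply]
  change (Pi.single 0 z0 : E) 0 (pt w hw) = w
  rw [Pi.single_eq_same, z0_pt]

lemma evA_e0 (w : ℂ) (hw : ‖w‖ ≤ 1) : evA (pt w hw) e0 = 1 := by
  rw [evA_apply]
  change (Pi.single 0 (1 : X 0) : E) 0 (pt w hw) = 1
  rw [Pi.single_eq_same]
  rfl

/-- `Y` is homeomorphic to the open unit disc -/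
noncomputable def hY : Y ≃ₜ Metric.ball (0:ℂ) 1 where
  toFun φ := ⟨(φ : Spectrum A) zA, by simpa using φ.2.1⟩
  invFun w := ⟨evA (pt (w : ℂ) (by simpa using (mem_ball_zero_iff.1 w.2).le)), by
    constructor
    · rw [evA_zA]; exact mem_ball_zero_iff.1 w.2
    · rw [evA_e0]; exact one_ne_zero⟩
  left_inv φ := by
    apply Subtype.ext
    apply DFunLike.ext
    intro F
    exact (char_A φ.2.2 φ.2.1.le F).symm
  right_inv w := by
    apply Subtype.ext
    exact evA_zA _ _
  continuous_toFun := by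
    exact ((continuous_eval_char zA).comp continuous_subtype_val).subtype_mk _
  continuous_invFun := by
    refine Continuous.subtype_mk (continuous_char fun F => ?_) _
    change Continuous fun w : Metric.ball (0:ℂ) 1 =>
      (F : E) 0 (pt (w : ℂ) (by simpa using (mem_ball_zero_iff.1 w.2).le))
    refine (map_continuous ((F : E) 0)).comp (Continuous.subtype_mk ?_ _)
    exact (continuous_single 0).comp continuous_subtype_val

lemma hY_apply (y : Y) : ((hY y : Metric.ball (0:ℂ) 1) : ℂ) = (y : Spectrum A) zA := rfl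

end Pool.Agent.V1171.LS
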