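import Pool.Agent.V1171.LS.SteinA

set_option autoImplicit false
set_option synthInstance.maxHeartbeats 400000

open Topology WeakDual Filter

namespace Pool.Agent.V1171.LS

/-- the point of `Y` with coordinate `w` -/
noncomputable def inv (w : Metric.ball (0:ℂ) 1) : Y := hY.symm w

open Classical in
/-- a function on `Y` as a function of the coordinate -/
noncomputable def cf (f : Y → ℂ) : ℂ → ℂ := fun w =>
  if h : w ∈ Metric.ball (0:ℂ) 1 then f (inv ⟨w, h⟩) else 0

/-- coordinate -/
noncomputable def w (y : Y) : ℂ := (hY y : Metric.ball (0:ℂ) 1)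

lemma w_mem (y : Y) : w y ∈ Metric.ball (0:ℂ) 1 := (hY y).2

lemma continuous_w : Continuous w := continuous_subtype_val.comp hY.continuous

lemma cf_w (f : Y → ℂ) (y : Y) : cf f (w y) = f y := by
  unfold cf
  rw [dif_pos (w_mem y)]
  congr 1
  exact hY.symm_apply_apply y

lemma w_inv (z : Metric.ball (0:ℂ) 1) : w (inv z) = z := by
  unfold w inv
  rw [hY.apply_symm_apply]

lemma isOpen_image_w {U : Set Y} (hU : IsOpen U) : IsOpen (w '' U) := by
  have h1 : w '' U = Subtype.val '' (hY '' U) := by rw [← Set.image_comp]; rfl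
  rw [h1]
  exact (Metric.isOpen_ball.isOpenEmbedding_subtypeVal.isOpenMap _)
    (hY.isOpenMap _ hU)

/-- holomorphic functions on open subsets of `Y` -/
def holY (U : Set Y) (f : Y → ℂ) : Prop := ∀ u ∈ U, DifferentiableAt ℂ (cf f) (w u)

/-- the homeomorphism of `Y` with the unit disc of `ℂ¹` -/
noncomputable def hZ : (Set.univ : Set Y) ≃ₜ {x : Fin 1 → ℂ | ‖x 0‖ < 1} where
  toFun y := ⟨fun _ => w y, by simpa using w_mem (y : Y)⟩
  invFun x := ⟨inv ⟨(x : Fin 1 → ℂ) 0, mem_ball_zero_iff.2 x.2⟩, trivial⟩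
  left_inv y := by
    apply Subtype.ext
    exact hY.symm_apply_apply _
  right_inv x := by
    apply Subtype.ext
    funext i
    change w (inv _) = _
    rw [w_inv]
    fin_cases i
    rfl
  continuous_toFun := by
    refine Continuous.subtype_mk (continuous_pi fun _ => ?_) _
    exact continuous_w.comp continuous_subtype_val
  continuous_invFun := by
    refine Continuous.subtype_mk (hY.symm.continuous.comp (Continuous.subtype_mk ?_ _)) _
    exact (continuous_apply 0).comp continuous_subtype_val

lemma hZ_apply (y : (Set.univ : Set Y)) : (hZ y : Fin 1 → ℂ) = fun _ => w y := rfl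

/-- the complex structure of the disc -/
noncomputable def SY : ReducedComplexSpace Y where
  hol := holY
  hol_local := by
    intro U f hU
    constructor
    · intro h y hy
      exact ⟨U, hU, hy, subset_rfl, h⟩
    · intro h y hy
      obtain ⟨V, _, hyV, _, hV⟩ := h y hy
      exact hV y hyV
  chart := by
    intro y
    refine ⟨Set.univ, 1, {x | ‖x 0‖ < 1}, {x | ‖x 0‖ < 1}, hZ, isOpen_univ, trivial, ?_, ?_⟩
    · refine ⟨isOpen_lt (continuous_apply 0).norm continuous_const, subset_rfl, fun x hx =>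
        ⟨{x | ‖x 0‖ < 1}, isOpen_lt (continuous_apply 0).norm continuous_const, hx, subset_rfl,
          0, fun i => i.elim0, fun i => i.elim0, ?_⟩⟩
      ext z
      simp
    · intro U f hU _
      constructor
      · intro h u hu
        refine ⟨{x | x 0 ∈ w '' U}, (isOpen_image_w hU).preimage (continuous_apply 0),
          ⟨u, hu, rfl⟩, fun x => cf f (x 0), ?_, ?_⟩
        · rintro x ⟨v, hv, hvx⟩
          have h1 : DifferentiableAt ℂ (cf f) (x 0) := by
            rw [← hvx]; exact h v hv
          have h5 : DifferentiableAt ℂ (fun x : Fin 1 → ℂ => x 0) x := by fun_prop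
          exact (DifferentiableAt.comp x h1 h5).differentiableWithinAt
        · intro v hv _
          rw [hZ_apply]
          exact (cf_w f v).symm
      · intro h u hu
        obtain ⟨N, hN, huN, G, hG, heq⟩ := h ⟨u, trivial⟩ hu
        rw [hZ_apply] at huN
        have h1 : DifferentiableAt ℂ (fun z : ℂ => G (fun _ => z)) (w u) := by
          have h2 : DifferentiableAt ℂ G (fun _ => w u) := hG.differentiableAt (hN.mem_nhds huN)
          have h3 : DifferentiableAt ℂ (fun z : ℂ => (fun _ : Fin 1 => z)) (w u) := by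
            rw [differentiableAt_pi]
            exact fun _ => differentiableAt_id
          exact DifferentiableAt.comp (w u) h2 h3
        refine h1.congr_of_eventuallyEq ?_
        have h4 : Continuous fun z : ℂ => (fun _ : Fin 1 => z) := continuous_pi fun _ => continuous_id
        filter_upwards [(isOpen_image_w hU).mem_nhds ⟨u, hu, rfl⟩,
          h4.continuousAt.preimage_mem_nhds (hN.mem_nhds huN)] with z hz hzN
        obtain ⟨v, hv, rfl⟩ := hz
        rw [cf_w]
        exact heq ⟨v, trivial⟩ hv hzN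

lemma continuous_of_hol {f : Y → ℂ} (h : SY.hol Set.univ f) : Continuous f := by
  rw [continuous_iff_continuousAt]
  intro y
  have h1 : f = cf f ∘ w := by
    funext y
    exact (cf_w f y).symm
  rw [h1]
  exact ContinuousAt.comp (h y trivial).continuousAt continuous_w.continuousAt

lemma hol_gelfand (a : A) : SY.hol Set.univ (fun y : Y => (y : Spectrum A) a) := by
  -- uniform limits of polynomials
  intro u _
  have hball : Metric.ball (0:ℂ) 1 ∈ 𝓝 (w u) := Metric.isOpen_ball.mem_nhds (w_mem u)
  -- value in terms of the function `a 0`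
  have hval : ∀ z : ℂ, ∀ hz : z ∈ Metric.ball (0:ℂ) 1,
      cf (fun y : Y => (y : Spectrum A) a) z =
        (a : E) 0 (pt z (by simpa using (mem_ball_zero_iff.1 hz).le)) := by
    intro z hz
    unfold cf
    rw [dif_pos hz]
    rfl
  -- polynomials
  have hg : (a : E) 0 ∈ closure (Algebra.adjoin ℂ {z0} : Set (X 0)) := a.2
  rw [mem_closure_iff_seq_limit] at hg
  obtain ⟨g, hg, hlim⟩ := hg
  have hpoly : ∀ p : X 0, p ∈ Algebra.adjoin ℂ {z0} →
      ∃ q : Polynomial ℂ, ∀ z : ℂ, ∀ hz : ‖z‖ ≤ 1, p (pt z hz) = q.eval z := by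
    intro p hp
    rw [Algebra.adjoin_singleton_eq_range_aeval] at hp
    obtain ⟨q, hq⟩ := hp
    refine ⟨q, fun z hz => ?_⟩
    have hq' : Polynomial.aeval z0 q = p := hq
    rw [← hq']
    have h1 : (ContinuousMap.evalAlgHom ℂ ℂ (pt z hz)) (Polynomial.aeval z0 q) =
        Polynomial.aeval ((ContinuousMap.evalAlgHom ℂ ℂ (pt z hz)) z0) q :=
      (Polynomial.aeval_algHom_apply _ _ _).symm
    have h2 : (ContinuousMap.evalAlgHom ℂ ℂ (pt z hz)) z0 = z := z0_pt z hz
    rw [h2] at h1
    exact h1
  choose q hq using fun n => hpoly (g n) (hg n)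
  have hT : TendstoLocallyUniformlyOn (fun n z => (q n).eval z)
      (cf (fun y : Y => (y : Spectrum A) a)) atTop (Metric.ball (0:ℂ) 1) := by
    apply TendstoUniformlyOn.tendstoLocallyUniformlyOn
    rw [Metric.tendstoUniformlyOn_iff]
    intro ε hε
    filter_upwards [(Metric.tendsto_nhds.1 hlim) ε hε] with n hn z hz
    have hz1 : ‖z‖ ≤ 1 := (mem_ball_zero_iff.1 hz).le
    rw [hval z hz, ← hq n z hz1, dist_comm]
    exact (ContinuousMap.dist_apply_le_dist _).trans_lt hn
  have hD := hT.differentiableOn (Filter.Eventually.of_forall fun n =>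
    (q n).differentiable.differentiableOn) Metric.isOpen_ball
  exact hD.differentiableAt hball

theorem steinOn : SteinOn A Y := by
  refine ⟨SY, ⟨inferInstance, ?_, ?_, ?_⟩, hol_gelfand, ?_⟩
  · exact hY.secondCountableTopology
  · intro x y hxy
    refine ⟨_, hol_gelfand zA, fun h => hxy ?_⟩
    apply hY.injective
    exact Subtype.ext h
  · intro L hL
    -- `L` lies in a smaller disc
    obtain ⟨r, hr, hLr⟩ : ∃ r < 1, ∀ y ∈ L, ‖w y‖ ≤ r := by
      rcases L.eq_empty_or_nonempty with h | h
      · exact ⟨0, zero_lt_one, by simp [h]⟩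
      · obtain ⟨y0, _, hmax⟩ := hL.exists_isMaxOn h continuous_w.norm.continuousOn
        exact ⟨‖w y0‖, mem_ball_zero_iff.1 (w_mem y0), fun y hy => hmax hy⟩
    have hcl : IsClosed {y : Y | ∀ f, SY.hol Set.univ f → ∀ c : ℝ, (∀ x ∈ L, ‖f x‖ ≤ c) →
        ‖f y‖ ≤ c} := by
      have : {y : Y | ∀ f, SY.hol Set.univ f → ∀ c : ℝ, (∀ x ∈ L, ‖f x‖ ≤ c) → ‖f y‖ ≤ c} =
          ⋂ f, ⋂ (_ : SY.hol Set.univ f), ⋂ c : ℝ, ⋂ (_ : ∀ x ∈ L, ‖f x‖ ≤ c),
            {y | ‖f y‖ ≤ c} := by
        ext y
        simp only [Set.mem_ofPred_eq, Set.mem_iInter]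
      rw [this]
      refine isClosed_iInter fun f => isClosed_iInter fun hf => isClosed_iInter fun c =>
        isClosed_iInter fun _ => ?_
      exact isClosed_le (continuous_of_hol hf).norm continuous_const
    have hcomp : IsCompact {y : Y | ‖w y‖ ≤ r} := by
      have h1 : {y : Y | ‖w y‖ ≤ r} = hY.symm '' (Subtype.val ⁻¹' (Metric.closedBall (0:ℂ) r)) := by
        ext y
        constructor
        · intro hy
          exact ⟨hY y, mem_closedBall_zero_iff.2 hy, hY.symm_apply_apply y⟩
        · rintro ⟨z, hz, rfl⟩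
          have : w (hY.symm z) = z := w_inv z
          rw [Set.mem_ofPred_eq, this]
          simpa using hz
      rw [h1]
      refine IsCompact.image ?_ hY.symm.continuous
      rw [Topology.IsEmbedding.subtypeVal.isCompact_preimage_iff]
      · exact isCompact_closedBall _ _
      · rw [Subtype.range_val]
        exact Metric.closedBall_subset_ball hr
    refine hcomp.of_isClosed_subset hcl fun y hy => ?_
    exact hy _ (hol_gelfand zA) r hLr
  · intro h hh L hL ε hε
    obtain ⟨r, hr, hLr⟩ : ∃ r < 1, ∀ y ∈ L, ‖w y‖ ≤ r := by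
      rcases L.eq_empty_or_nonempty with h | h
      · exact ⟨0, zero_lt_one, by simp [h]⟩
      · obtain ⟨y0, _, hmax⟩ := hL.exists_isMaxOn h continuous_w.norm.continuousOn
        exact ⟨‖w y0‖, mem_ball_zero_iff.1 (w_mem y0), fun y hy => hmax hy⟩
    obtain ⟨R, hR, hR1⟩ := exists_between (max_lt hr zero_lt_one)
    have hR0 : 0 < R := (le_max_right _ _).trans_lt hR
    obtain ⟨R', hR', hR'1⟩ := exists_between hR1
    have hd : DifferentiableOn ℂ (cf h) (Metric.closedBall 0 R') := by
      intro z hz
      have hz1 : z ∈ Metric.ball (0:ℂ) 1 := Metric.closedBall_subset_ball hR'1 hz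
      have h1 := hh (inv ⟨z, hz1⟩) trivial
      rw [w_inv] at h1
      exact h1.differentiableWithinAt
    have hR'0 : 0 < R' := hR0.trans hR'
    have hps := DifferentiableOn.hasFPowerSeriesOnBall (R := ⟨R', hR'0.le⟩) hd hR'0
    have hT := hps.tendstoUniformlyOn (r' := ⟨R, hR0.le⟩) (ENNReal.coe_lt_coe.2 hR')
    rw [Metric.tendstoUniformlyOn_iff] at hT
    obtain ⟨n, hn⟩ := (hT ε hε).exists
    refine ⟨∑ k ∈ Finset.range n,
      (cauchyPowerSeries (cf h) 0 R').coeff k • zA ^ k, fun y hy => ?_⟩
    have hyR : w y ∈ Metric.ball (0:ℂ) ((⟨R, hR0.le⟩ : NNReal) : ℝ) := by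
      rw [mem_ball_zero_iff]
      exact (hLr y hy).trans_lt ((le_max_left _ _).trans_lt hR)
    have h1 := hn (w y) hyR
    rw [zero_add, cf_w, dist_comm, dist_eq_norm] at h1
    have h2 : (y : Spectrum A) (∑ k ∈ Finset.range n,
        (cauchyPowerSeries (cf h) 0 R').coeff k • zA ^ k) =
        (cauchyPowerSeries (cf h) 0 R').partialSum n (w y) := by
      rw [map_sum]
      unfold FormalMultilinearSeries.partialSum
      refine Finset.sum_congr rfl fun k _ => ?_
      rw [map_smul, map_pow, FormalMultilinearSeries.apply_eq_pow_smul_coeff, smul_eq_mul,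
        smul_eq_mul, mul_comm]
      rfl
    rw [gelfand_apply, h2]
    exact h1

end Pool.Agent.V1171.LS
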